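import Pool.Agent.Q205.GC.Tri2

/-!
# The gcd recursion for prime triples: few `N` have a loss `N - f(N)` below `log³ N`

In every interval of length `X` at most `C K X / log³ X` integers `N` have `N - f(N) ≤ K`.
-/

set_option autoImplicit false

namespace Pool.Agent.Results.MP_3f8e47_nt.TypicalLoss

/-- The 3-periodic sequence `2, 6, 0, 2, 6, 0, …` (indexed from 1). -/
def b (n : ℕ) : ℕ := if n % 3 = 1 then 2 else if n % 3 = 2 then 6 else 0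

theorem result :
    ∃ C : ℝ, 0 < C ∧ ∀ (a : ℕ → ℕ → ℤ) (f : ℕ → ℕ),
      (∀ N : ℕ, 6 ≤ N → a N 1 = (N : ℤ) - 6) →
      (∀ N : ℕ, 6 ≤ N → ∀ n : ℕ, 2 ≤ n →
        a N n = a N (n - 1) - ((Int.gcd (a N (n - 1)) ((n + b n : ℕ) : ℤ) : ℕ) : ℤ)) →
      (∀ N : ℕ, 6 ≤ N → IsLeast {n : ℕ | 1 ≤ n ∧ a N n = 0} (f N)) →
      ∀ A X K : ℕ, 2 ≤ X →
        (((Finset.Ioc A (A + X)).filter (fun N => 6 ≤ N ∧ N ≤ f N + K)).card : ℝ) ≤
          C * (K * (X / Real.log X ^ 3)) := by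
  obtain ⟨C, hC, h1⟩ := Pool.Agent.Q205.GC.tri_count
  refine ⟨C, by linarith, fun a f ha1 ha2 hf => ?_⟩
  have hrec : Pool.Agent.Q205.GC.RecT a f := ⟨ha1, ha2, hf⟩
  exact fun A X K hX => h1 a f hrec A X hX K

end Pool.Agent.Results.MP_3f8e47_nt.TypicalLoss
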