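import Pool.Agent.Results.MP_3f8e47_nt.SmallLoss
import Pool.Agent.Results.MP_3f8e47_nt.TypicalLoss
import Pool.Agent.Q138.PS.YN

/-!
# The loss of the gcd recursion for prime triples at the integers next to `c n ^ j α ^ n`

For almost every real number `α > 1` the following holds for all algebraic `c > 0`, all integers `j` and all real `D`:
(1) for `τ < 2`, `κ < 2` and all large `n` EVERY integer `m` with `|m - c n ^ j α ^ n| ≤ D n ^ κ` has a loss `m - f(m) > (log m) ^ τ`;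
(2) for `0 ≤ τ < 3`, every `κ`, `ε > 0` and all large `N` at most `N ^ (max 0 (1 + κ - δ) + ε)` of the `n ≤ N` have an integer `m` with
`|m - c n ^ j α ^ n| ≤ D n ^ κ` and `m - f(m) ≤ (log m) ^ τ`, where `δ = 3` for `τ < 2` and `δ = 3 - τ` for `τ ≥ 2`.

Input: the bounds for the number of the integers with a small loss in `SmallLoss` and `TypicalLoss`.
-/

set_option autoImplicit false

namespace Pool.Agent.Results.MP_3f8e47_nt.LossNearPowers

open Finset Filter MeasureTheory Topology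
open Pool.Agent.Q138.PS (ClosePow closeCount)

/-- the 3-periodic sequence `b` of the problem -/
def b (n : ℕ) : ℕ := if n % 3 = 1 then 2 else if n % 3 = 2 then 6 else 0

/-- the integers `m ≥ 6` with a loss `m - f(m) ≤ (log m) ^ τ` -/
def lossy (f : ℕ → ℕ) (τ : ℝ) : Set ℕ := {m | 6 ≤ m ∧ (m : ℝ) ≤ f m + Real.log m ^ τ}

/-- the exponent `δ`: `3` for `τ < 2`, `3 - τ` for `τ ≥ 2` -/
noncomputable def saving (τ : ℝ) : ℝ := if τ < 2 then 3 else 3 - τ

/-- **Theorem.** -/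
theorem result (a : ℕ → ℕ → ℤ) (f : ℕ → ℕ) (ha : ∀ N : ℕ, 6 ≤ N → a N 1 = (N : ℤ) - 6)
    (ha' : ∀ N : ℕ, 6 ≤ N → ∀ n : ℕ, 2 ≤ n →
      a N n = a N (n - 1) - ((Int.gcd (a N (n - 1)) ((n + b n : ℕ) : ℤ) : ℕ) : ℤ))
    (hf : ∀ N : ℕ, 6 ≤ N → IsLeast {n : ℕ | 1 ≤ n ∧ a N n = 0} (f N)) :
    ∀ᵐ α : ℝ, 1 < α → ∀ c : ℝ, 0 < c → IsAlgebraic ℚ c → ∀ (j : ℤ) (D κ τ : ℝ),
      (τ < 2 → κ < 2 → ∀ᶠ n : ℕ in atTop, ∀ m : ℕ, 6 ≤ m → ClosePow α c j D κ n m → (f m : ℝ) + Real.log m ^ τ < m) ∧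
      (0 ≤ τ → τ < 3 → ∀ ε : ℝ, 0 < ε → ∀ᶠ N : ℕ in atTop,
        (closeCount (lossy f τ) α c j D κ N : ℝ) ≤ (N : ℝ) ^ (max 0 (1 + κ - saving τ) + ε)) := by
  obtain ⟨c₀, C₀, hc₀, hC₀, hs⟩ := Pool.Agent.Results.MP_3f8e47_nt.SmallLoss.result
  obtain ⟨C₁, hC₁, ht⟩ := Pool.Agent.Results.MP_3f8e47_nt.TypicalLoss.result
  have hs' : ∀ X K : ℕ, 2 ≤ X → 2 ≤ K → (K : ℝ) * Real.log K ≤ c₀ * Real.log X ^ 2 →
      (({m : ℕ | 6 ≤ m ∧ m ≤ f m + K ∧ m ≤ X}).ncard : ℝ) ≤ C₀ * (X * (Real.log K / Real.log X) ^ (3 : ℝ)) := by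
    intro X K hX hK hKX
    have h1 := hs a f ha ha' hf 0 X K hX hK hKX
    rw [show (3 : ℝ) = ((3 : ℕ) : ℝ) by norm_num, Real.rpow_natCast]
    refine le_trans ?_ h1
    rw [← Set.ncard_coe_finset]
    refine Nat.cast_le.2 (Set.ncard_le_ncard ?_ (Finset.finite_toSet _))
    rintro m ⟨h2, h3, h4⟩
    simp only [Finset.coe_filter, Finset.mem_Ioc, Set.mem_ofPred_eq]
    omega
  have ht' : ∀ X K : ℕ, 2 ≤ X →
      (({m : ℕ | 6 ≤ m ∧ m ≤ f m + K ∧ m ≤ X}).ncard : ℝ) ≤ C₁ * (K * (X / Real.log X ^ 3)) := by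
    intro X K hX
    have h1 := ht a f ha ha' hf 0 X K hX
    refine le_trans ?_ h1
    rw [← Set.ncard_coe_finset]
    refine Nat.cast_le.2 (Set.ncard_le_ncard ?_ (Finset.finite_toSet _))
    rintro m ⟨h2, h3, h4⟩
    simp only [Finset.coe_filter, Finset.mem_Ioc, Set.mem_ofPred_eq]
    omega
  have key := Pool.Agent.Q138.PS.loss_main (fun m => 6 ≤ m) f saving 3 (by norm_num) (by
      intro τ h0 h3 ε hε
      by_cases h2 : τ < 2
      · obtain ⟨q, h4, h5⟩ := exists_rat_btwn h2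
        refine ⟨q, h4, by linarith, ?_⟩
        unfold saving
        rw [if_pos h2, if_pos h5]
        linarith
      · obtain ⟨q, h4, h5⟩ := exists_rat_btwn (show τ < min 3 (τ + ε) from lt_min h3 (by linarith))
        refine ⟨q, h4, h5.trans_le (min_le_left _ _), ?_⟩
        unfold saving
        rw [if_neg h2, if_neg (by linarith [not_lt.1 h2])]
        have := h5.trans_le (min_le_right _ _)
        linarith) (by
      intro τ h0 h3
      unfold saving
      split_ifs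
      · norm_num
      · linarith) (by
      intro τ h0 h3 δ hδ hδs
      by_cases h2 : τ < 2
      · unfold saving at hδs
        rw [if_pos h2] at hδs
        exact Pool.Agent.Q138.PS.loss_count _ f 3 c₀ C₀ (by norm_num) hc₀ hs' τ h0 h2 δ hδs
      · unfold saving at hδs
        rw [if_neg h2] at hδs
        refine Pool.Agent.Q138.PS.loss_count_lin _ f 3 C₁ ht' τ h0 δ ?_
        push_cast
        linarith)
  filter_upwards [key] with α hα h1 c hc hca j D κ τ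
  obtain ⟨h2, h3⟩ := hα h1 c hc hca j D κ τ
  refine ⟨fun hτ hκ => ?_, fun h0 hτ ε hε => h3 h0 hτ ε hε⟩
  have h4 : κ + 1 < saving (max τ 0) := by
    unfold saving
    rw [if_pos (max_lt hτ (by norm_num))]
    linarith
  filter_upwards [h2 (by linarith) h4] with n hn m hm6 hm
  exact hn m hm hm6

end Pool.Agent.Results.MP_3f8e47_nt.LossNearPowers
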