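import Pool.Agent.Q205.GC.Tri4

/-!
# The gcd recursion for prime triples: the mean of the loss `N - f(N)` is larger than a power

If all prime factors of `(N-4)(N-2)(N+2)` are larger than `z` and `N-4` has a prime factor below
`N/3 - 2`, then `N - f(N) > z`; by the lower bound sieve there are many such `N` with `z` a power.
-/

set_option autoImplicit false

namespace Pool.Agent.Results.MP_3f8e47_nt.MeanLoss

/-- The 3-periodic sequence `2, 6, 0, 2, 6, 0, …` (indexed from 1). -/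
def b (n : ℕ) : ℕ := if n % 3 = 1 then 2 else if n % 3 = 2 then 6 else 0

theorem result :
    ∃ δ c : ℝ, 0 < δ ∧ 0 < c ∧ ∀ (a : ℕ → ℕ → ℤ) (f : ℕ → ℕ),
      (∀ N : ℕ, 6 ≤ N → a N 1 = (N : ℤ) - 6) →
      (∀ N : ℕ, 6 ≤ N → ∀ n : ℕ, 2 ≤ n →
        a N n = a N (n - 1) - ((Int.gcd (a N (n - 1)) ((n + b n : ℕ) : ℤ) : ℕ) : ℤ)) →
      (∀ N : ℕ, 6 ≤ N → IsLeast {n : ℕ | 1 ≤ n ∧ a N n = 0} (f N)) →
      ∀ X : ℕ, 6 ≤ X → c * (X : ℝ) ^ (1 + δ) ≤ ∑ N ∈ Finset.Icc 6 X, ((N : ℝ) - f N) := by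
  obtain ⟨δ, c, hδ, hc, h2⟩ := Pool.Agent.Q205.GC.tri_mean_pow
  refine ⟨δ, c, hδ, hc, fun a f ha1 ha2 hf => ?_⟩
  have hrec : Pool.Agent.Q205.GC.RecT a f := ⟨ha1, ha2, hf⟩
  exact fun X hX => h2 a f hrec X hX

end Pool.Agent.Results.MP_3f8e47_nt.MeanLoss
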