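import Pool.Agent.Q205.GC.TriC

/-!
# The gcd recursion for prime triples: few `N` have a small loss `N - f(N)`

For `K log K ≤ c log² X` at most `C X (log K / log X)³` integers `N` of an interval of length `X` have
`N - f(N) ≤ K`.

Method: `N - 5 - f(N)` is the end of a walk which starts at `0` and changes from `c` to `c + G - 1`,
`G = gcd (N - c - 4 + b n, n + b n)` at the time `n`.  All changes happen before the time `6 (N - f(N))`, so the walk up to
the time `6 K` is determined by `N` modulo a small modulus and, for each prime `p ≤ 10 K`, by a condition on `N` modulo `p`;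
the end of the walk gives three prime numbers.  The large sieve is applied to the `N` of each path, and the sum over all
paths of the densities of their classes is at most `1`.
-/

set_option autoImplicit false

namespace Pool.Agent.Results.MP_3f8e47_nt.SmallLoss

/-- The 3-periodic sequence `2, 6, 0, 2, 6, 0, …` (indexed from 1). -/
def b (n : ℕ) : ℕ := if n % 3 = 1 then 2 else if n % 3 = 2 then 6 else 0

/-- Let `a` and `f` be the sequences of the problem.  There are constants `c`, `C` such that for all `A`, `X ≥ 2`, `K ≥ 2`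
with `K log K ≤ c log² X` at most `C X (log K / log X)³` integers `N ≥ 6` with `A < N ≤ A + X` have `N - f N ≤ K`. -/
theorem result :
    ∃ c C : ℝ, 0 < c ∧ 0 < C ∧ ∀ (a : ℕ → ℕ → ℤ) (f : ℕ → ℕ),
      (∀ N : ℕ, 6 ≤ N → a N 1 = (N : ℤ) - 6) →
      (∀ N : ℕ, 6 ≤ N → ∀ n : ℕ, 2 ≤ n →
        a N n = a N (n - 1) - ((Int.gcd (a N (n - 1)) ((n + b n : ℕ) : ℤ) : ℕ) : ℤ)) →
      (∀ N : ℕ, 6 ≤ N → IsLeast {n : ℕ | 1 ≤ n ∧ a N n = 0} (f N)) →
      ∀ A X K : ℕ, 2 ≤ X → 2 ≤ K → (K : ℝ) * Real.log K ≤ c * Real.log X ^ 2 →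
        (((Finset.Ioc A (A + X)).filter (fun N => 6 ≤ N ∧ N ≤ f N + K)).card : ℝ) ≤
          C * (X * (Real.log K / Real.log X) ^ 3) := by
  obtain ⟨c, C, hc, hC, h1⟩ := Pool.Agent.Q205.GC.tri_small
  refine ⟨c, C, hc, hC, fun a f ha1 ha2 hf => ?_⟩
  have hrec : Pool.Agent.Q205.GC.RecT a f := ⟨ha1, ha2, hf⟩
  exact fun A X K hX hK hKc => h1 a f hrec A X K hX hK hKc

end Pool.Agent.Results.MP_3f8e47_nt.SmallLoss
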